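import Pool.Agent.H95.GY.Main
import Pool.Agent.H6.GN.Sieve
import Pool.Agent.H82.GN.TernExist
import Pool.Agent.H82.GY.IrrExist
import Pool.Agent.H82.GY.ScrollNec
import Pool.Agent.H54.TS.ThreeSquares

/-!
# Degrees and genera of smooth nondegenerate curves: all degrees `d ≥ D(n)`

`G n d g` says that there is a smooth irreducible nondegenerate curve of degree `d` and genus `g`
in complex projective space of dimension `n` (homogeneous prime ideals, Hilbert polynomial,
Jacobian criterion).  For every `n ≥ 3` Q1 is answered for all `d ≥ D(n)`, so up to finitely many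
pairs `(d, g)` for each `n`: with `thr n = n + ⌊n / 3⌋ - 1` every genus
`g ≤ d ^ 2 / (2 thr n + 1)` occurs, and for the other `g` there is an explicit numerical criterion
`Types`: curves on the quadric, on the plane blown up in at most six general points, and on
irrational scrolls.  The true threshold is `d ^ 2 / (2 thr n)`: below it (minus `O(d)`) every genus
occurs, above it only a set of density zero, but for `3 ∣ n`, `n ≥ 6`, where the values of one
ternary quadratic polynomial occur as well.

Proof.  (1) A curve with `2 (thr n + 1) g > d ^ 2 + O(d)` lies on a surface of degree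
`s ≤ thr n` (Castelnuovo theory).  On the minimal resolution the hyperplane class `H` satisfies
`H ^ 2 = s`, `h⁰(H) ≥ n + 1`, which bounds the sectional genus by `s + 1 - n` (Clifford,
Riemann-Roch).  If `K + H` is nef then `K ^ 2 ≥ 4 n - 3 s ≥ 3`, and the surface is rational: `F_e`
is reduced to `F_0` or `F_1`, and for `2 ≤ r ≤ 6` points the classes of the `(-1)`-curves of a
general blow up are effective, the curve is not a component of `-K`, so it is nef, and `H` is
positive on these classes: so the pair of classes occurs on a general blow up.  Otherwise the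
surface is the plane or a scroll over a curve of genus `p`; for `p ≥ 1` Clifford's theorem for the
quotient and the kernel of least degree leaves three cases, all realised.  (2) Existence for
`2 (thr n) g ≤ d ^ 2 - O(d)`: blow ups of the plane in at most six points, K3 surfaces, sums of
three squares.  The two ranges overlap.  (3) Counting: a sieve for the binary forms of
`K ^ 2 = 7`.
-/

namespace Pool.Agent.Results.MP_2fc43b_ag.AllLargeDegrees

open Pool.Agent.H95.GN (G thr Answer)
open Pool.Agent.H95.GY

/-- For every `n ≥ 3`: (1) for `d` large the genera are the `g` with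
`(2 thr n + 1) g ≤ d ^ 2` and those given by the criterion `Types`; (2) every `g` with
`2 (thr n) g + C d ≤ d ^ 2` is a genus; (3) for every `ε > 0` and `d` large every finite set of
exceptions to `G n d g ↔ Answer n d g` has at most `ε d ^ 2` elements, (4) and at most `C d`
elements if `n = 2 mod 3`. -/
theorem result (F : Facts) (n : ℕ) (hn : 3 ≤ n) :
    (∃ D : ℕ, ∀ d ≥ D, ∀ g, G n d g ↔ (2 * thr n + 1) * g ≤ d ^ 2 ∨ Types n d g) ∧
    (∃ C : ℕ, ∀ d ≥ C, ∀ g, 2 * thr n * g + C * d ≤ d ^ 2 → G n d g) ∧
    (∀ ε : ℝ, 0 < ε → ∃ D : ℕ, ∀ d ≥ D, ∀ E : Finset ℕ,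
      (∀ g ∈ E, ¬ (G n d g ↔ Answer n d g)) → (E.card : ℝ) ≤ ε * d ^ 2) ∧
    (n % 3 = 2 → ∃ C : ℕ, ∀ d ≥ C, ∀ E : Finset ℕ,
      (∀ g ∈ E, ¬ (G n d g ↔ Answer n d g)) → E.card ≤ C * d) :=
  main_of F Pool.Agent.H54.TS.three Pool.Agent.H6.GN.sieve (Pool.Agent.H82.GN.tern_exist F.old)
    (Pool.Agent.H82.GY.scroll_nec F.toSurfaces) (Pool.Agent.H82.GY.irrational_exist F) n hn

end Pool.Agent.Results.MP_2fc43b_ag.AllLargeDegrees
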